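import Pool.Agent.H93.GT.Targets
import Pool.Agent.H85.SC.FINAL

/-!
`MP_de9001_an`, dichotomy for the synthesis property: row GFIN.
-/

set_option autoImplicit false

open Filter Topology MeasureTheory

namespace Pool.Agent.H40.GT

open Pool.Agent.H93.GT Pool.Agent.H87.Synth Pool.Agent.H85.SC Finset
open Pool.Agent.H93.ET (sg jj iE iA T_KKL T_CUT T_BRK T_SER T_CRI)

theorem gfin (h1 : T_WPO) (h2 : T_WGR) (h3 : T_GDC) (h4 : T_RED) : T_GFIN := by
  intro w hw hmono
  refine ⟨h1 w hw hmono, fun hs => ?_⟩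
  have hd : ∀ n, 0 < Real.sqrt (w n / 2) := fun n => Real.sqrt_pos.2 (by
    have := hw n
    linarith)
  have hdm : Monotone fun k => Real.sqrt (w k / 2) := fun a b hab => Real.sqrt_le_sqrt (by
    have := hmono hab
    linarith)
  have hd2 : ∀ n, Real.sqrt (w n / 2) ^ 2 = w n / 2 := fun n => Real.sq_sqrt (by
    have := hw n
    linarith)
  have hsd : Summable (fun n => 1 / Real.sqrt (w n / 2) ^ 2) := by
    have he : (fun n => 1 / Real.sqrt (w n / 2) ^ 2) = fun n => 2 * (1 / w n) := by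
      funext n
      rw [hd2 n]
      have := (hw n).ne'
      field_simp
    rw [he]
    exact hs.mul_left 2
  obtain ⟨G, hG, hGT⟩ := h3 (fun k => Real.sqrt (w k / 2)) hd hdm hsd
  choose R hR1 hR2 hR3 hR4 using hGT
  have hcr : ∀ T, Cross (R T) w := by
    intro T
    have h := h2 (R T) _ hd hdm (hR3 T)
    have he : (fun k => 2 * Real.sqrt (w k / 2) ^ 2) = w := by
      funext k
      rw [hd2 k]
      ring
    rw [← he]
    exact h
  refine ⟨?_, ?_, ?_⟩
  · intro A hA
    obtain ⟨F, hF, hFA⟩ := h4 A hA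
    exact ⟨fun x => G (F x), hG.comp hF, fun x => ⟨R (F x), hR1 _, hR2 _, hR3 _, hcr _,
      (hFA x).trans (hR4 (F x))⟩⟩
  · intro hM
    apply Pool.Agent.H72.not_measurable_IllF
    have h5 : Pool.Agent.H72.IllF = (G ⁻¹'
        {ρ : ℤ → ℤ → Bool | ∃ r : Setoid ℤ, IsRel ρ r ∧ (∀ n, {m | r n m}.Finite) ∧
          Cross r w ∧ HasSynthesis r})ᶜ := by
      ext T
      rw [Set.mem_compl_iff, Set.mem_preimage, Set.mem_ofPred_eq, hR4 T]
      constructor
      · rintro h ⟨r, hr, _, _, hr'⟩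
        rw [isRel_unique hr (hR1 T)] at hr'
        exact h hr'
      · intro h h'
        exact h ⟨_, hR1 T, hR2 T, hcr T, h'⟩
    rw [h5]
    exact (hG.measurable hM).compl
  · intro hM
    apply Pool.Agent.H72.not_measurable_IllF
    have h5 : Pool.Agent.H72.IllF = (G ⁻¹'
        {ρ : ℤ → ℤ → Bool | ∃ r : Setoid ℤ, IsRel ρ r ∧ Cross r w ∧ HasSynthesis r})ᶜ := by
      ext T
      rw [Set.mem_compl_iff, Set.mem_preimage, Set.mem_ofPred_eq, hR4 T]
      constructor
      · rintro h ⟨r, hr, _, hr'⟩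
        rw [isRel_unique hr (hR1 T)] at hr'
        exact h hr'
      · intro h h'
        exact h ⟨_, hR1 T, hcr T, h'⟩
    rw [h5]
    exact (hG.measurable hM).compl

end Pool.Agent.H40.GT
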