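import Pool.Agent.H93.GT.Targets
import Pool.Agent.H24.SC.DEC
import Pool.Agent.H87.SC.TOT

/-!
`MP_de9001_an`, dichotomy for the synthesis property: row GTT.
-/

set_option autoImplicit false

open Filter Topology MeasureTheory

namespace Pool.Agent.H40.GT

open Pool.Agent.H93.GT Pool.Agent.H87.Synth Pool.Agent.H85.SC Finset
open Pool.Agent.H93.ET (sg jj iE iA T_KKL T_CUT T_BRK T_SER T_CRI)

/-- sum of `wx` over a window -/
theorem wx_win (d : ℕ → ℝ) (P : Pos d) (n i : ℕ) (hv : Valid n i) (w : ℂ) :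
    ∑ z ∈ Ico (P.X (slot n i) : ℤ) (P.X (slot n i) + P.L (slot n i)), P.wx n i z * w ^ z =
      ∑ z ∈ P.RS n i, P.wt n i z * w ^ z := by
  classical
  rw [Pos.RS, Finset.sum_filter]
  refine Finset.sum_congr rfl fun z hz => ?_
  obtain ⟨hz1, hz2⟩ := Finset.mem_Ico.mp hz
  by_cases hr : P.Reg n i z
  · rw [if_pos hr]
    have hP : lr (lc i) n 4 z := hr.2.2.2.1
    simp only [Pos.wx, Pos.wt, ind, if_pos hP, s1, s2, s3]
    push_cast
    ring
  · rw [if_neg hr]
    have : P.wx n i z = 0 := by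
      by_cases hP : lr (lc i) n 4 z
      · by_cases h0 : chi (lvl n i) 0 z = 0
        · simp [Pos.wx, h0]
        · by_cases h1 : chi (lvl n i) 1 z = 0
          · simp [Pos.wx, h1]
          · by_cases h2 : chi (lvl n i) 2 z = 0
            · simp [Pos.wx, h2]
            · exact absurd ⟨hv, hz1, hz2, hP, h0, h1, h2⟩ hr
      · simp [Pos.wx, ind, hP]
    rw [this, zero_mul]

theorem gtt (h1 : T_GFM) (h2 : T_GCN) (h3 : T_GSG) : T_GTT := by
  classical
  intro d P S M w hw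
  obtain ⟨hRS, hsg, -, -, -, -⟩ := h3 d P
  have hwz : ∀ z : ℤ, ‖w ^ z‖ = 1 := by
    intro z
    rw [norm_zpow, hw, one_zpow]
  -- the error
  let E : ℕ → ℕ → ℂ := fun n i => ∑ z ∈ P.RS n i,
    if (i = 1 ∧ s1 n i z = s2 n i z ∧ s1 n i z = s3 n i z) then P.wt n i z * w ^ z else 0
  let W : ℕ → ℕ → ℂ := fun n i =>
    ∑ z ∈ Ico (P.X (slot n i) : ℤ) (P.X (slot n i) + P.L (slot n i)), P.wx n i z * w ^ z
  have h4 : ∀ p ∈ stn S M, ∑ z ∈ P.RS p.1 p.2, (if p.2 = 1 ∧ s1 p.1 p.2 z = s2 p.1 p.2 z ∧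
      s1 p.1 p.2 z = s3 p.1 p.2 z then 0 else P.wt p.1 p.2 z) * w ^ z =
      W p.1 p.2 - E p.1 p.2 := by
    rintro ⟨n, i⟩ hp
    simp only [stn, Finset.mem_filter, Finset.mem_product, Finset.mem_range] at hp
    obtain ⟨⟨hn, hi⟩, hS, hv, hs⟩ := hp
    simp only [W, E]
    rw [wx_win d P n i hv w, ← Finset.sum_sub_distrib]
    refine Finset.sum_congr rfl fun z hz => ?_
    split_ifs <;> ring
  rw [Finset.sum_congr rfl h4, Finset.sum_sub_distrib, Pool.Agent.H24.SC.stn_sum S M W]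
  have hE : ‖∑ p ∈ stn S M, E p.1 p.2‖ ≤ 2 := by
    have hE1 : ∀ p ∈ stn S M, ‖E p.1 p.2‖ ≤ if p = (0, 1) then 2 else 0 := by
      rintro ⟨n, i⟩ hp
      simp only [stn, Finset.mem_filter, Finset.mem_product, Finset.mem_range] at hp
      obtain ⟨⟨hn, hi⟩, hS, hv, hs⟩ := hp
      by_cases hi1 : i = 1
      · subst hi1
        have hn0 : n = 0 := by
          have := hv.2
          simp [lg] at this
          exact this
        subst hn0
        rw [if_pos rfl]
        obtain ⟨hpos, hcnt, -, -⟩ := h2 d P 0 1 hv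
        have hc0 : (0 : ℝ) < P.cnt 0 1 := by exact_mod_cast hpos
        have hl : lvl 0 1 = 0 := by simp [lvl, lg]
        simp only [E]
        rw [← Finset.sum_filter]
        refine (norm_sum_le _ _).trans ?_
        have hterm : ∀ z ∈ (P.RS 0 1).filter (fun z => True ∧ s1 0 1 z = s2 0 1 z ∧
            s1 0 1 z = s3 0 1 z), ‖P.wt 0 1 z * w ^ z‖ ≤ 1 / (P.cnt 0 1 : ℝ) := by
          intro z hz
          obtain ⟨hz1, -⟩ := Finset.mem_filter.mp hz
          have hr : P.Reg 0 1 z := (hRS 0 1 z).1 hz1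
          obtain ⟨ha, hb, hc⟩ := hsg 0 1 z hr
          rw [norm_mul, hwz, mul_one, Pos.wt, hl, pow_zero]
          have : ‖((s1 0 1 z * s2 0 1 z * s3 0 1 z : ℤ) : ℂ)‖ = 1 := by
            rcases ha with ha | ha <;> rcases hb with hb | hb <;> rcases hc with hc | hc <;>
              rw [ha, hb, hc] <;> norm_num
          rw [norm_mul, this, mul_one, norm_neg, norm_div, norm_one, Complex.norm_natCast]
        refine (Finset.sum_le_card_nsmul _ _ _ hterm).trans ?_
        rw [nsmul_eq_mul]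
        have hcard : ((P.RS 0 1).filter (fun z => True ∧ s1 0 1 z = s2 0 1 z ∧
            s1 0 1 z = s3 0 1 z)).card ≤ 2 * P.cnt 0 1 := by
          have hsub : (P.RS 0 1).filter (fun z => True ∧ s1 0 1 z = s2 0 1 z ∧
              s1 0 1 z = s3 0 1 z) ⊆ P.FA 0 1 1 ∪ P.FA 0 1 (-1) := by
            intro z hz
            obtain ⟨hz1, -, h12, h13⟩ := Finset.mem_filter.mp hz
            have hr : P.Reg 0 1 z := (hRS 0 1 z).1 hz1
            obtain ⟨ha, hb, hc⟩ := hsg 0 1 z hr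
            rcases ha with ha | ha
            · refine Finset.mem_union_left _ (Finset.mem_filter.mpr ⟨hz1, ha, ?_, ?_⟩)
              · rw [← h12, ha]
              · rw [← h13, ha]
            · refine Finset.mem_union_right _ (Finset.mem_filter.mpr ⟨hz1, ha, ?_, ?_⟩)
              · rw [← h12, ha]
              · rw [← h13, ha]
          refine (Finset.card_le_card hsub).trans ((Finset.card_union_le _ _).trans ?_)
          rw [(hcnt 1 (Or.inl rfl)).1, (hcnt (-1) (Or.inr rfl)).1]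
          omega
        have : (((P.RS 0 1).filter (fun z => True ∧ s1 0 1 z = s2 0 1 z ∧
            s1 0 1 z = s3 0 1 z)).card : ℝ) ≤ 2 * P.cnt 0 1 := by exact_mod_cast hcard
        rw [mul_one_div, div_le_iff₀ hc0]
        exact this
      · have : E n i = 0 := by
          simp only [E, hi1, false_and, if_false, Finset.sum_const_zero]
        rw [this, norm_zero]
        split_ifs <;> norm_num
    refine (norm_sum_le _ _).trans ((Finset.sum_le_sum hE1).trans ?_)
    rw [Finset.sum_ite_eq']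
    split_ifs <;> norm_num
  have hW : ‖∑ n ∈ Finset.range M, ∑ k ∈ Finset.range M, (if n ∈ S then
        ∑ a ∈ (Finset.range M).filter (fun a => n < 2 ^ a ∧ k < 2 ^ a ∧ slot n (2 ^ a + k) < M),
          W n (2 ^ a + k)
      else 0)‖ ≤ ∑ n ∈ Finset.range M, ∑ k ∈ Finset.range M, 15 * (3 / 4 : ℝ) ^ (n + k) := by
    refine (norm_sum_le _ _).trans (Finset.sum_le_sum fun n _ => ?_)
    refine (norm_sum_le _ _).trans (Finset.sum_le_sum fun k _ => ?_)
    split_ifs
    · exact h1 d P n k M w hw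
    · rw [norm_zero]; positivity
  have h5 : ∑ n ∈ Finset.range M, ∑ k ∈ Finset.range M, 15 * (3 / 4 : ℝ) ^ (n + k) =
      15 * ((∑ n ∈ Finset.range M, (3 / 4 : ℝ) ^ n) * ∑ k ∈ Finset.range M, (3 / 4 : ℝ) ^ k) := by
    rw [Finset.sum_mul_sum, Finset.mul_sum]
    refine Finset.sum_congr rfl fun n _ => ?_
    rw [Finset.mul_sum]
    refine Finset.sum_congr rfl fun k _ => ?_
    rw [pow_add]
  have h6 := Pool.Agent.H87.SC.geo M
  have h7 : (0 : ℝ) ≤ ∑ n ∈ Finset.range M, (3 / 4 : ℝ) ^ n :=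
    Finset.sum_nonneg fun n _ => by positivity
  have h8 : (∑ n ∈ Finset.range M, (3 / 4 : ℝ) ^ n) * ∑ k ∈ Finset.range M, (3 / 4 : ℝ) ^ k ≤
      4 * 4 := mul_le_mul h6 h6 h7 (by norm_num)
  rw [h5] at hW
  have := norm_sub_le (∑ n ∈ Finset.range M, ∑ k ∈ Finset.range M, (if n ∈ S then
        ∑ a ∈ (Finset.range M).filter (fun a => n < 2 ^ a ∧ k < 2 ^ a ∧ slot n (2 ^ a + k) < M),
          W n (2 ^ a + k)
      else 0)) (∑ p ∈ stn S M, E p.1 p.2)
  linarith

end Pool.Agent.H40.GT
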